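import Pool.Agent.H94.PA.H63.VC7.RegG
import Pool.Agent.H94.PA.M12
import Pool.Agent.H94.PA.M28

/-! # The error terms -/

namespace Pool.Agent.H63.VC7

open Pool.Agent.H63.VC
open Pool.Agent.H63.VC3 Pool.Agent.H63.VC4 Pool.Agent.H63.VC6 Complex

variable {m p : ℕ} {s t : Fin m → Fin p} {r : Fin p → ℝ} {y : Fin m → ℂ} {v : Fin p → ℂ}

theorem ExpandG_NT (r : ℝ) (M : ℕ) (A : Finset (Fin m)) (k k' : Fin m → ℕ)
    (h : ∀ j ∈ A, k j = k' j) : NT r M A k = NT r M A k' := by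
  funext v
  unfold NT
  congr 1
  exact Finset.prod_congr rfl fun j hj => by rw [h j hj]

theorem ExpandG_DG (r : ℝ) (M : ℕ) (A : Finset (Fin m)) (k k' : Fin m → ℕ)
    (h : ∀ j ∈ A, k j = k' j) : DG r M A k = DG r M A k' := by
  unfold DG
  rw [ExpandG_NT r M A k k' h]

theorem ExpandG_KG (r : ℝ) (M : ℕ) (A : Finset (Fin m)) (y y' : Fin m → ℂ)
    (h : ∀ j ∈ A, y j = y' j) : KG r M A y = KG r M A y' := by
  funext v
  unfold KG
  congr 1
  exact Finset.prod_congr rfl fun j hj => by rw [h j hj]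

theorem ExpandG_GD (r Y : ℝ) (M k1 k2 l2 : ℕ) (A : Finset (Fin m)) (k k' : Fin m → ℕ)
    (h : ∀ j ∈ A, k j = k' j) : GD r Y M k1 k2 l2 A k = GD r Y M k1 k2 l2 A k' := by
  unfold GD
  have e : (∀ j ∈ A, k1 ≤ k j ∧ k j ≤ k2) ↔ (∀ j ∈ A, k1 ≤ k' j ∧ k' j ≤ k2) := by
    constructor
    · intro H j hj
      rw [← h j hj]; exact H j hj
    · intro H j hj
      rw [h j hj]; exact H j hj
  have e2 : FG r M A (fun j => ((yk 2 M (k j) : ℝ) : ℂ)) (rho 2 M l2) Y =
      FG r M A (fun j => ((yk 2 M (k' j) : ℝ) : ℂ)) (rho 2 M l2) Y := by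
    unfold FG
    rw [ExpandG_KG r M A (fun j => ((yk 2 M (k j) : ℝ) : ℂ)) (fun j => ((yk 2 M (k' j) : ℝ) : ℂ))
      (fun j hj => by rw [h j hj])]
  rw [e2]
  by_cases hh : ∀ j ∈ A, k1 ≤ k j ∧ k j ≤ k2
  · rw [if_pos hh, if_pos (e.mp hh)]
  · rw [if_neg hh, if_neg (fun H => hh (e.mpr H))]

/-- Splitting of a sum over all variables. -/
theorem ExpandG_split (M : ℕ) (E : Finset (Fin m)) (F : (Fin m → ℕ) → ℂ) :
    ∑ k ∈ Fintype.piFinset (fun _ : Fin m => Finset.range M), F k =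
    ∑ κ ∈ Fintype.piFinset (fun j : Fin m => if j ∈ E then Finset.range M else {0}),
      ∑ k ∈ Fintype.piFinset (fun j : Fin m => if j ∈ E then {κ j} else Finset.range M), F k := by
  rw [← Finset.sum_fiberwise_of_maps_to
    (t := Fintype.piFinset (fun j : Fin m => if j ∈ E then Finset.range M else {0}))
    (g := fun k j => if j ∈ E then k j else 0)]
  · refine Finset.sum_congr rfl fun κ hκ => ?_
    refine Finset.sum_congr ?_ fun _ _ => rfl
    rw [Fintype.mem_piFinset] at hκ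
    ext k
    rw [Finset.mem_filter, Fintype.mem_piFinset, Fintype.mem_piFinset]
    constructor
    · rintro ⟨h1, h2⟩ j
      by_cases hj : j ∈ E
      · rw [if_pos hj, Finset.mem_singleton]
        have := congrFun h2 j
        simp only [if_pos hj] at this
        exact this
      · rw [if_neg hj]
        exact h1 j
    · intro h1
      refine ⟨fun j => ?_, ?_⟩
      · have h2 := h1 j
        have h3 := hκ j
        by_cases hj : j ∈ E
        · rw [if_pos hj] at h2 h3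
          rw [Finset.mem_singleton] at h2
          rw [h2]; exact h3
        · rw [if_neg hj] at h2
          exact h2
      · funext j
        have h2 := h1 j
        have h3 := hκ j
        by_cases hj : j ∈ E
        · rw [if_pos hj] at h2 ⊢
          rw [Finset.mem_singleton] at h2
          exact h2
        · rw [if_neg hj] at h3 ⊢
          rw [Finset.mem_singleton] at h3
          exact h3.symm
  · intro k hk
    rw [Fintype.mem_piFinset] at hk ⊢
    intro j
    by_cases hj : j ∈ E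
    · simp only [if_pos hj]; exact hk j
    · simp only [if_neg hj, Finset.mem_singleton]

theorem ExpandG_card (M : ℕ) (hM : 0 < M) (E : Finset (Fin m)) :
    ((Fintype.piFinset (fun j : Fin m => if j ∈ E then Finset.range M else {0})).card : ℝ) ≤
      (M : ℝ) ^ m := by
  rw [Fintype.card_piFinset]
  push_cast
  have h : ∀ j ∈ (Finset.univ : Finset (Fin m)),
      (((if j ∈ E then Finset.range M else {0} : Finset ℕ)).card : ℝ) ≤ (M : ℝ) := by
    intro j _
    have h1 : (1 : ℝ) ≤ M := by exact_mod_cast hM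
    by_cases hj : j ∈ E
    · rw [if_pos hj, Finset.card_range]
    · rw [if_neg hj, Finset.card_singleton]; push_cast; exact h1
  calc ∏ j, (((if j ∈ E then Finset.range M else {0} : Finset ℕ)).card : ℝ)
      ≤ ∏ _j : Fin m, (M : ℝ) := Finset.prod_le_prod (fun j _ => by positivity) h
    _ = (M : ℝ) ^ m := by simp

/-- The weights of the frozen edges. -/
theorem ExpandG_S (hst : ∀ j, s j ≠ t j) (B : Finset (Fin p)) (M : ℕ) (κ : Fin m → ℕ) :
    ∏ j ∈ EB s t B, (S M (κ j) ^ 2) ^ 2 =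
      (∏ i ∈ B, ∏ j ∈ inc s t i, S M (κ j) ^ 2) *
        ∏ i ∈ Bᶜ, ∏ j ∈ inc s t i ∩ EB s t B, S M (κ j) ^ 2 := by
  have h1 := prod_inc_real s t hst
    (fun _ j => if j ∈ EB s t B then S M (κ j) ^ 2 else 1)
  have h2 : ∏ j, ((if j ∈ EB s t B then S M (κ j) ^ 2 else 1) *
      (if j ∈ EB s t B then S M (κ j) ^ 2 else 1)) = ∏ j ∈ EB s t B, (S M (κ j) ^ 2) ^ 2 := by
    rw [← Finset.prod_subset (Finset.subset_univ (EB s t B))]
    · refine Finset.prod_congr rfl fun j hj => ?_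
      rw [if_pos hj, sq (S M (κ j) ^ 2)]
    · intro j _ hj
      rw [if_neg hj, one_mul]
  rw [← h2, ← h1, ← Finset.prod_mul_prod_compl B]
  congr 1
  · refine Finset.prod_congr rfl fun i hi => Finset.prod_congr rfl fun j hj => ?_
    rw [if_pos]
    rw [mem_inc] at hj
    rw [EB, Finset.mem_filter]
    refine ⟨Finset.mem_univ _, ?_⟩
    rcases hj with h | h
    · left; rw [h]; exact hi
    · right; rw [h]; exact hi
  · refine Finset.prod_congr rfl fun i _ => ?_
    rw [← Finset.prod_subset (Finset.inter_subset_left (s₁ := inc s t i) (s₂ := EB s t B))]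
    · refine Finset.prod_congr rfl fun j hj => ?_
      rw [if_pos (Finset.mem_inter.mp hj).2]
    · intro j hj hj2
      rw [if_neg]
      intro h
      exact hj2 (Finset.mem_inter.mpr ⟨hj, h⟩)

/-- The bound of the bad factors, for one node. -/
theorem ExpandG_node (hc : CritG s t r y v) (i : Fin p) :
    ∃ C : ℝ, 0 < C ∧ ∃ D : ℕ, ∀ (M k1 k2 l1 l2 : ℕ) (k : Fin m → ℕ), Win 2 M k1 k2 l1 l2 →
    (∀ j ∈ inc s t i, k j < M) →
    (∏ j ∈ inc s t i, S M (k j) ^ 2) *
      ‖DG (r i) M (inc s t i) k - GD (r i) (v i).im M k1 k2 l2 (inc s t i) k‖ ≤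
      C * (M : ℝ) ^ D * Real.exp (M * (Lg (r i) (inc s t i) y (v i) - 82 / 10000)) := by
  have hloc := locG_v hc i
  obtain ⟨C, hC, D, H⟩ := DG_GD (r i) (inc s t i) (hc.ne i) (hc.hr i) (v i).im (hc.imv i)
    hloc.2.1
  refine ⟨C, hC, D, fun M k1 k2 l1 l2 k hw hk => (H M k1 k2 l1 l2 k hw hk).trans ?_⟩
  refine mul_le_mul_of_nonneg_left (Real.exp_le_exp.mpr ?_) (by positivity)
  refine mul_le_mul_of_nonneg_left ?_ (Nat.cast_nonneg _)
  have := lowG hc i
  unfold dg at this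
  linarith

/-- The bound of the product of the bad factors. -/
theorem ExpandG_bad (hc : CritG s t r y v) (B : Finset (Fin p)) :
    ∃ C : ℝ, 0 < C ∧ ∃ D : ℕ, ∀ (M k1 k2 l1 l2 : ℕ) (k : Fin m → ℕ), Win 2 M k1 k2 l1 l2 →
    (∀ j ∈ EB s t B, k j < M) →
    (∏ i ∈ B, ∏ j ∈ inc s t i, S M (k j) ^ 2) *
      ‖∏ i ∈ B, (DG (r i) M (inc s t i) k - GD (r i) (v i).im M k1 k2 l2 (inc s t i) k)‖ ≤
      C * (M : ℝ) ^ D *
        Real.exp (M * ∑ i ∈ B, (Lg (r i) (inc s t i) y (v i) - 82 / 10000)) := by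
  choose C hC D H using fun i => ExpandG_node hc i
  refine ⟨∏ i ∈ B, C i, Finset.prod_pos fun i _ => hC i, ∑ i ∈ B, D i,
    fun M k1 k2 l1 l2 k hw hk => ?_⟩
  rw [_root_.norm_prod, ← Finset.prod_mul_distrib, ← Finset.prod_pow_eq_pow_sum, Finset.mul_sum,
    Real.exp_sum, ← Finset.prod_mul_distrib, ← Finset.prod_mul_distrib]
  refine Finset.prod_le_prod (fun i _ => by positivity) fun i hi => ?_
  refine H i M k1 k2 l1 l2 k hw fun j hj => hk j ?_
  rw [mem_inc] at hj
  rw [EB, Finset.mem_filter]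
  refine ⟨Finset.mem_univ _, ?_⟩
  rcases hj with h | h
  · left; rw [h]; exact hi
  · right; rw [h]; exact hi

/-- The contribution of a nonempty set `B` of bad nodes. -/
theorem expand_term (hc : CritG s t r y v) (B : Finset (Fin p)) (hB : B.Nonempty) :
    ∃ C : ℝ, 0 < C ∧ ∃ D M0 : ℕ, ∀ M k1 k2 l1 l2 : ℕ, M0 ≤ M → Win 2 M k1 k2 l1 l2 →
    ‖∑ k ∈ Fintype.piFinset (fun _ : Fin m => Finset.range M),
        (∏ j, Cc 2 1 M (yk 2 M (k j))) *
          ((∏ i ∈ Bᶜ, GD (r i) (v i).im M k1 k2 l2 (inc s t i) k) *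
            ∏ i ∈ B, (DG (r i) M (inc s t i) k - GD (r i) (v i).im M k1 k2 l2 (inc s t i) k))‖ ≤
      C * (M : ℝ) ^ D * Real.exp (M * ((VG s t r y v).re - 1 / 500)) := by
  classical
  obtain ⟨C1, hC1, D1, H1⟩ := ExpandG_bad hc B
  obtain ⟨C2, hC2, D2, M0, H2⟩ := bound_G hc B
  refine ⟨C1 * C2, mul_pos hC1 hC2, m + D1 + D2, M0, fun M k1 k2 l1 l2 hM hw => ?_⟩
  have hMpos : 0 < M := by have := hw.big; omega
  rw [ExpandG_split M (EB s t B)]
  -- the bound for a single `κ`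
  have hBE : ∀ i ∈ B, ∀ j ∈ inc s t i, j ∈ EB s t B := by
    intro i hi j hj
    rw [mem_inc] at hj
    rw [EB, Finset.mem_filter]
    refine ⟨Finset.mem_univ _, ?_⟩
    rcases hj with h | h
    · left; rw [h]; exact hi
    · right; rw [h]; exact hi
  have key : ∀ κ ∈ Fintype.piFinset
      (fun j : Fin m => if j ∈ EB s t B then Finset.range M else {0}),
      ‖∑ k ∈ Fintype.piFinset (fun j : Fin m => if j ∈ EB s t B then {κ j} else Finset.range M),
        (∏ j, Cc 2 1 M (yk 2 M (k j))) *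
          ((∏ i ∈ Bᶜ, GD (r i) (v i).im M k1 k2 l2 (inc s t i) k) *
            ∏ i ∈ B, (DG (r i) M (inc s t i) k - GD (r i) (v i).im M k1 k2 l2 (inc s t i) k))‖ ≤
      C1 * C2 * (M : ℝ) ^ (D1 + D2) * Real.exp (M * ((VG s t r y v).re - 1 / 500)) := by
    intro κ hκ
    rw [Fintype.mem_piFinset] at hκ
    have hκE : ∀ j ∈ EB s t B, κ j < M := by
      intro j hj
      have := hκ j
      rw [if_pos hj, Finset.mem_range] at this
      exact this
    have hκr : ∀ j, κ j < M := by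
      intro j
      have := hκ j
      by_cases hj : j ∈ EB s t B
      · exact hκE j hj
      · rw [if_neg hj, Finset.mem_singleton] at this
        omega
    have e1 : ∀ k ∈ Fintype.piFinset
        (fun j : Fin m => if j ∈ EB s t B then {κ j} else Finset.range M),
        (∏ j, Cc 2 1 M (yk 2 M (k j))) *
          ((∏ i ∈ Bᶜ, GD (r i) (v i).im M k1 k2 l2 (inc s t i) k) *
            ∏ i ∈ B, (DG (r i) M (inc s t i) k - GD (r i) (v i).im M k1 k2 l2 (inc s t i) k)) =
        ((∏ j ∈ EB s t B, Cc 2 1 M (yk 2 M (κ j))) *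
            ∏ i ∈ B, (DG (r i) M (inc s t i) κ -
              GD (r i) (v i).im M k1 k2 l2 (inc s t i) κ)) *
          ((∏ j ∈ (EB s t B)ᶜ, Cc 2 1 M (yk 2 M (k j))) *
            ∏ i ∈ Bᶜ, GD (r i) (v i).im M k1 k2 l2 (inc s t i) k) := by
      intro k hk
      rw [Fintype.mem_piFinset] at hk
      have hkE : ∀ j ∈ EB s t B, k j = κ j := by
        intro j hj
        have := hk j
        rw [if_pos hj, Finset.mem_singleton] at this
        exact this
      rw [← Finset.prod_mul_prod_compl (EB s t B) (fun j => Cc 2 1 M (yk 2 M (k j)))]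
      have a1 : ∏ j ∈ EB s t B, Cc 2 1 M (yk 2 M (k j)) =
          ∏ j ∈ EB s t B, Cc 2 1 M (yk 2 M (κ j)) :=
        Finset.prod_congr rfl fun j hj => by rw [hkE j hj]
      have a2 : ∏ i ∈ B, (DG (r i) M (inc s t i) k -
              GD (r i) (v i).im M k1 k2 l2 (inc s t i) k) =
          ∏ i ∈ B, (DG (r i) M (inc s t i) κ -
              GD (r i) (v i).im M k1 k2 l2 (inc s t i) κ) :=
        Finset.prod_congr rfl fun i hi => by
          rw [ExpandG_DG _ _ _ k κ fun j hj => hkE j (hBE i hi j hj),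
            ExpandG_GD _ _ _ _ _ _ _ k κ fun j hj => hkE j (hBE i hi j hj)]
      rw [a1, a2]
      ring
    rw [Finset.sum_congr rfl e1, ← Finset.mul_sum, norm_mul, norm_mul, _root_.norm_prod]
    set T : ℝ := ‖∑ k ∈ Fintype.piFinset
        (fun j : Fin m => if j ∈ EB s t B then {κ j} else Finset.range M),
        (∏ j ∈ (EB s t B)ᶜ, Cc 2 1 M (yk 2 M (k j))) *
            ∏ i ∈ Bᶜ, GD (r i) (v i).im M k1 k2 l2 (inc s t i) k‖ with hT
    set U : ℝ := ‖∏ i ∈ B, (DG (r i) M (inc s t i) κ -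
              GD (r i) (v i).im M k1 k2 l2 (inc s t i) κ)‖ with hU
    have b1 : ∏ j ∈ EB s t B, ‖Cc 2 1 M (yk 2 M (κ j))‖ ≤
        ∏ j ∈ EB s t B, (S M (κ j) ^ 2) ^ 2 := by
      refine Finset.prod_le_prod (fun j _ => norm_nonneg _) fun j hj => ?_
      have := ReduceN_Cc 2 1 M (κ j) le_rfl le_rfl le_rfl (by have := hκE j hj; omega)
      simpa using this
    rw [ExpandG_S hc.st B M κ] at b1
    have b2 := H1 M k1 k2 l1 l2 κ hw hκE
    have b3 := H2 M k1 k2 l1 l2 hM hw κ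
    rw [← hU] at b2
    rw [← hT] at b3
    set P1 : ℝ := ∏ i ∈ B, ∏ j ∈ inc s t i, S M (κ j) ^ 2 with hP1
    set P2 : ℝ := ∏ i ∈ Bᶜ, ∏ j ∈ inc s t i ∩ EB s t B, S M (κ j) ^ 2 with hP2
    have hP1' : 0 ≤ P1 := Finset.prod_nonneg fun i _ => Finset.prod_nonneg fun j _ => sq_nonneg _
    have hP2' : 0 ≤ P2 := Finset.prod_nonneg fun i _ => Finset.prod_nonneg fun j _ => sq_nonneg _
    have hU0 : 0 ≤ U := norm_nonneg _
    have hT0 : 0 ≤ T := norm_nonneg _
    have hexp : ∑ i ∈ B, (Lg (r i) (inc s t i) y (v i) - 82 / 10000) +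
        (∑ i ∈ Bᶜ, Lg (r i) (inc s t i) y (v i) +
          ∑ i ∈ Bᶜ, ∑ j ∈ inc s t i ∩ EB s t B, loss s t r i j) ≤
        (VG s t r y v).re - 1 / 500 := by
      have h1 := locG_loss hc B
      have h2 := VG_re hc.st r y v
      rw [← Finset.sum_add_sum_compl B] at h2
      rw [Finset.sum_sub_distrib, Finset.sum_const, nsmul_eq_mul, h2]
      have h3 : (1 : ℝ) ≤ B.card := by exact_mod_cast hB.card_pos
      linarith
    calc (∏ j ∈ EB s t B, ‖Cc 2 1 M (yk 2 M (κ j))‖) * U * T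
        ≤ (P1 * P2) * U * T := by gcongr
      _ = (P1 * U) * (P2 * T) := by ring
      _ ≤ (C1 * (M : ℝ) ^ D1 *
            Real.exp (M * ∑ i ∈ B, (Lg (r i) (inc s t i) y (v i) - 82 / 10000))) *
          (C2 * (M : ℝ) ^ D2 * Real.exp (M * (∑ i ∈ Bᶜ, Lg (r i) (inc s t i) y (v i) +
            ∑ i ∈ Bᶜ, ∑ j ∈ inc s t i ∩ EB s t B, loss s t r i j))) :=
          mul_le_mul b2 b3 (mul_nonneg hP2' hT0) (by positivity)
      _ = C1 * C2 * (M : ℝ) ^ (D1 + D2) *
          Real.exp (M * (∑ i ∈ B, (Lg (r i) (inc s t i) y (v i) - 82 / 10000) +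
            (∑ i ∈ Bᶜ, Lg (r i) (inc s t i) y (v i) +
            ∑ i ∈ Bᶜ, ∑ j ∈ inc s t i ∩ EB s t B, loss s t r i j))) := by
          generalize ∑ i ∈ B, (Lg (r i) (inc s t i) y (v i) - 82 / 10000) = e1
          generalize ∑ i ∈ Bᶜ, Lg (r i) (inc s t i) y (v i) +
            ∑ i ∈ Bᶜ, ∑ j ∈ inc s t i ∩ EB s t B, loss s t r i j = e2
          rw [mul_add (M : ℝ), Real.exp_add, pow_add]
          ring
      _ ≤ _ := by
          refine mul_le_mul_of_nonneg_left (Real.exp_le_exp.mpr ?_) (by positivity)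
          exact mul_le_mul_of_nonneg_left hexp (Nat.cast_nonneg _)
  refine (norm_sum_le _ _).trans ((Finset.sum_le_sum key).trans ?_)
  rw [Finset.sum_const, nsmul_eq_mul]
  have hcard := ExpandG_card M hMpos (EB s t B)
  calc _ ≤ (M : ℝ) ^ m * (C1 * C2 * (M : ℝ) ^ (D1 + D2) *
        Real.exp (M * ((VG s t r y v).re - 1 / 500))) :=
        mul_le_mul_of_nonneg_right hcard (by positivity)
    _ = _ := by rw [add_assoc m D1 D2, pow_add (M : ℝ) m]; ring

end Pool.Agent.H63.VC7
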