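import Pool.Agent.H94.PA.H63.VC7.GNb
import Pool.Agent.H94.PA.M16
import Pool.Agent.H94.PA.M23
import Pool.Agent.H94.PA.M24

/-! # Sums over the free variables of the integrand -/

namespace Pool.Agent.H63.VC7

open Pool.Agent.H63.VC
open Pool.Agent.H63.VC3 Pool.Agent.H63.VC4 Pool.Agent.H63.VC6 Complex

variable {m p : ℕ} {s t : Fin m → Fin p} {r : Fin p → ℝ} {y : Fin m → ℂ} {v : Fin p → ℂ}

lemma HybM_ww_ne (n M : ℕ) (hM : 0 < M) (v : ℂ) (hv : 0 < v.im) : ww n M v ≠ 1 := by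
  intro h
  have h1 := norm_ww n M v
  rw [h, norm_one] at h1
  have h2 : Real.exp (-(2 * Real.pi * M * v.im)) < 1 := by
    rw [Real.exp_lt_one_iff]
    have hMr : (0 : ℝ) < M := by exact_mod_cast hM
    have : 0 < 2 * Real.pi * M * v.im := by positivity
    linarith
  linarith

lemma HybM_EB (s t : Fin m → Fin p) : EB s t ∅ = ∅ := by
  simp [EB]

theorem core_main (hc : CritG s t r y v) :
    ∃ C : ℝ, 0 < C ∧ ∃ M0 : ℕ, ∀ M k1 k2 l1 l2 : ℕ, M0 ≤ M → Win 2 M k1 k2 l1 l2 →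
    ∀ a : Fin p → ℝ, (∀ i, |a i| ≤ 15 / 100) →
    ‖∑ k ∈ Fintype.piFinset (fun _ : Fin m => Finset.Icc k1 k2),
        GN s t r M ∅ ∅ (fun j => ((yk 2 M (k j) : ℝ) : ℂ)) (fun i => a i + (v i).im * I) -
      (M : ℂ) ^ m * ∫ x in Set.pi Set.univ (fun _ : Fin m =>
          Set.Ioc ((k1 + bt 2) / M - 1 / 2) ((k2 + 1 + bt 2) / M - 1 / 2)),
        GN s t r M ∅ ∅ (fun j => x j + (y j).im * I) (fun i => a i + (v i).im * I)‖ ≤
      C * (M : ℝ) ^ m * Real.exp (M * (∑ i, Lg (r i) (inc s t i) y (v i) - 1 / 500)) := by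
  obtain ⟨C0, hC0, M0, hB⟩ := GN_bound s t hc.st r ∅ (fun i => (v i).im) (fun i => by
    have := (locG_v hc i).1
    exact ⟨this.2.1, this.2.2.trans (by norm_num)⟩)
  refine ⟨18 ^ m * C0, by positivity, M0 + 3000, ?_⟩
  intro M k1 k2 l1 l2 hM0 hw a ha
  have hM3000 : 3000 ≤ M := by omega
  have hMpos : 0 < M := by omega
  have hMr : (3000 : ℝ) ≤ M := by exact_mod_cast hM3000
  have hMr0 : (0 : ℝ) < M := by linarith
  have hπ3 : 3.14 < Real.pi := Real.pi_gt_d2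
  obtain ⟨y1, hy1⟩ : ∃ y1 : ℝ, y1 = (k1 + bt 2) / M - 1 / 2 := ⟨_, rfl⟩
  obtain ⟨y2, hy2⟩ : ∃ y2 : ℝ, y2 = (k2 + 1 + bt 2) / M - 1 / 2 := ⟨_, rfl⟩
  have a1 : 1 / 4 - 55 / 1000 ≤ y1 := by rw [hy1]; exact hw.a1
  have a2 : y1 ≤ 1 / 4 - 54 / 1000 := by rw [hy1]; exact hw.a2
  have a3 : 1 / 4 + 54 / 1000 ≤ y2 := by rw [hy2]; exact hw.a3
  have a4 : y2 ≤ 1 / 4 + 55 / 1000 := by rw [hy2]; exact hw.a4
  rw [← hy1, ← hy2]
  obtain ⟨T, hT⟩ : ∃ T : ℝ, T = ∑ i, Lg (r i) (inc s t i) y (v i) := ⟨_, rfl⟩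
  rw [← hT]
  obtain ⟨A, hA⟩ : ∃ A : ℝ, A = C0 * Real.exp (M * T) := ⟨_, rfl⟩
  have hA0 : 0 ≤ A := by rw [hA]; positivity
  -- the bound on the paths
  have hbd : ∀ (σ : Fin m → Fin 3) (z : Fin m → ℂ),
      (∀ j, Stt y1 y2 (1 / 100) (y j).im (σ j) (z j)) →
      ‖GN s t r M ∅ ∅ z (fun i => a i + (v i).im * I)‖ ≤
        A * Real.exp (M * (2 * ∑ j, exc (σ j))) := by
    intro σ z hz
    have h1 := hB M (by omega) z a (fun j => by
      obtain ⟨h1, h2, h3, -⟩ := hz j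
      refine ⟨?_, by linarith⟩
      rw [abs_le]
      constructor <;> linarith) ha
    have h2 := seg_potG hc ∅ y1 y2 a1 a2 a3 a4 a ha σ z (fun j _ => hz j) (fun j hj => by
      rw [HybM_EB] at hj
      exact absurd hj (Finset.notMem_empty j))
    rw [HybM_EB] at h1 h2
    simp only [Finset.inter_empty, Finset.sum_empty, Finset.sum_const_zero, mul_zero, Real.exp_zero,
      one_mul, Finset.compl_empty, add_zero] at h1 h2
    refine h1.trans ?_
    rw [hA, mul_assoc, ← Real.exp_add, ← mul_add]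
    gcongr
    rw [hT]
    exact h2
  have hre : ∀ z : Fin m → ℂ, (∀ i, y1 ≤ (z i).re ∧ (z i).re ≤ y2 ∧ |(z i).im| ≤ 1 / 100) →
      ∀ i, |(z i).re - 1 / 4| ≤ 55 / 1000 := by
    intro z hz i
    have := hz i
    rw [abs_le]
    constructor <;> linarith [this.1, this.2.1]
  have hv : ∀ i, |((a i : ℂ) + (v i).im * I).re| ≤ 15 / 100 := by
    intro i
    have e : ((a i : ℂ) + (v i).im * I).re = a i := by simp
    rw [e]
    exact ha i
  have hvw : ∀ i, ww 2 M ((a i : ℂ) + (v i).im * I) ≠ 1 := by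
    intro i
    apply HybM_ww_ne 2 M hMpos
    have e : ((a i : ℂ) + (v i).im * I).im = (v i).im := by simp
    rw [e]
    exact (locG_v hc i).1.2.1
  have hpp := prodpath (fun z => GN s t r M ∅ ∅ z (fun i => a i + (v i).im * I)) 2 M k1 k2
    (1 / 100) (fun j => (y j).im) hMpos hw.hk (by norm_num) (by norm_num)
    (fun j => (locG_y hc j).1.2.trans (by norm_num)) (by
      have : 2 * 3.14 * (1 / 100) * 3000 ≤ 2 * Real.pi * (1 / 100) * M := by gcongr
      linarith) y1 y2 hy1 hy2 (by linarith) A (A * Real.exp (-(M / 500))) hA0 (by positivity)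
    (by
      intro z hz
      refine ⟨?_, fun j => ?_⟩
      · have h1 := GN_continuousAt s t r M hM3000 ∅ ∅ z (fun i => a i + (v i).im * I) (hre z hz)
          hv hvw
        exact h1.comp (f := fun z : Fin m → ℂ =>
          ((z, fun i => (a i : ℂ) + (v i).im * I) : (Fin m → ℂ) × (Fin p → ℂ)))
          (by fun_prop)
      · exact GN_update_differentiable s t r M hM3000 ∅ ∅ z (fun i => a i + (v i).im * I) j
          (hre z hz) hv)
    (fun σ z hz => (hbd σ z hz).trans (mul_le_mul_of_nonneg_left (SegCore_prod M σ) hA0))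
    (fun σ z hσ hz => by
      refine (hbd σ z hz).trans ?_
      rw [mul_assoc]
      exact mul_le_mul_of_nonneg_left (SegCore_prod' M σ hσ) hA0)
  refine hpp.2.trans (le_of_eq ?_)
  calc (18 * (M : ℝ)) ^ m * (A * Real.exp (-(M / 500)))
      = 18 ^ m * C0 * (M : ℝ) ^ m * (Real.exp (M * T) * Real.exp (-(M / 500))) := by
        rw [hA, mul_pow]
        ring
    _ = _ := by
        rw [← Real.exp_add]
        congr 2
        ring

end Pool.Agent.H63.VC7
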